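import Mathlib

set_option autoImplicit false
set_option maxHeartbeats 400000

namespace Pool.Agent.Results.MP_7f507d_al.Basis

/-- Terms in the signature `(·, ¬, 1)`. -/
inductive Tm : Type
  | var : ℕ → Tm
  | one : Tm
  | mul : Tm → Tm → Tm
  | neg : Tm → Tm

/-- An algebra of type `(2,1,0)` on `A`. -/
structure Alg (A : Type) where
  mul : A → A → A
  neg : A → A
  one : A

def eval {A : Type} (M : Alg A) (v : ℕ → A) : Tm → A
  | .var i => v i
  | .one => M.one
  | .mul s t => M.mul (eval M v s) (eval M v t)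
  | .neg s => M.neg (eval M v s)

/-- `M` satisfies the identity `s ≈ t`. -/
def Sat {A : Type} (M : Alg A) (s t : Tm) : Prop := ∀ v : ℕ → A, eval M v s = eval M v t

/-- The three element algebra: `0 = ¬c`, `1 = c`, `2` = unit. -/
def C3 : Alg (Fin 3) := ⟨min, ![1, 0, 2], 2⟩

def bt (s : Tm) : Tm := .mul s (.neg s)
def pl (s t : Tm) : Tm := .neg (.mul (.neg s) (.neg t))
def x : Tm := .var 0
def y : Tm := .var 1
def z : Tm := .var 2
def e3 : Tm := bt (.mul (.mul x y) z)
def e2 : Tm := bt (.mul x y)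

/-- The finite basis. -/
def basis : List (Tm × Tm) :=
  [(.mul (.mul x y) z, .mul x (.mul y z)),
   (.mul x y, .mul y x),
   (.mul x x, x),
   (.mul .one x, x),
   (.neg (.neg x), x),
   (.neg .one, .one),
   (bt (.mul x y), .mul (bt x) (bt y)),
   (.mul x (.neg (bt x)), x),
   (.mul (.mul x (.neg e3)) (pl (.mul y (.neg e3)) (.mul z (.neg e3))),
     pl (.mul (.mul x (.neg e3)) (.mul y (.neg e3))) (.mul (.mul x (.neg e3)) (.mul z (.neg e3)))),
   (pl (.mul x y) e3, .mul (pl x (pl y e3)) (.mul (.mul x (.neg e3)) (.mul y (.neg e3)))),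
   (.mul (pl x e2) (pl (.neg x) e2), e2)]

section proof
variable {A : Type} [CommMonoid A] [InvolutiveNeg A]

def b (a : A) : A := a * -a
def p (a c : A) : A := -(-a * -c)

structure Ax (A : Type) [CommMonoid A] [InvolutiveNeg A] : Prop where
  idem : ∀ a : A, a * a = a
  n1 : -(1 : A) = 1
  bm : ∀ a c : A, b (a * c) = b a * b c
  top : ∀ a : A, a * -b a = a
  dis : ∀ a c d : A, a * -b (a * c * d) * p (c * -b (a * c * d)) (d * -b (a * c * d)) =
    p (a * -b (a * c * d) * (c * -b (a * c * d))) (a * -b (a * c * d) * (d * -b (a * c * d)))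
  cm : ∀ a c d : A, p (a * c) (b (a * c * d)) =
    p a (p c (b (a * c * d))) * (a * -b (a * c * d) * (c * -b (a * c * d)))
  cd : ∀ a c : A, p a (b (a * c)) * p (-a) (b (a * c)) = b (a * c)

theorem b_neg (a : A) : b (-a) = b a := by simp [b, mul_comm]
theorem p_comm (a c : A) : p a c = p c a := by simp [p, mul_comm]
theorem p_assoc (a c d : A) : p (p a c) d = p a (p c d) := by simp [p, mul_assoc]
theorem neg_p (a c : A) : -p a c = -a * -c := by simp [p]
theorem neg_mul' (a c : A) : -(a * c) = p (-a) (-c) := by simp [p]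

variable (H : Ax A)
include H

theorem b_p (a c : A) : b (p a c) = b a * b c := by rw [p, b_neg, H.bm, b_neg, b_neg]
theorem b_b (a : A) : b (b a) = b a := by
  have := H.bm a (-a)
  rwa [b_neg, H.idem] at this
theorem p_idem (a : A) : p a a = a := by simp [p, H.idem]
theorem mul_b (a : A) : a * b a = b a := by rw [b, ← mul_assoc, H.idem]
theorem p_b (a : A) : p a (b a) = a := by
  have := H.top (-a)
  rw [b_neg] at this
  rw [p, this, neg_neg]

theorem dis' {a c d : A} (h1 : b c = b a) (h2 : b d = b a) : a * p c d = p (a * c) (a * d) := by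
  have := H.dis a c d
  have e : b (a * c * d) = b a := by rw [H.bm, H.bm, h1, h2, H.idem, H.idem]
  have k1 := H.top a
  have k2 := H.top c
  have k3 := H.top d
  rw [h1] at k2
  rw [h2] at k3
  rwa [e, k1, k2, k3] at this

theorem abs1 {a c : A} (h : b c = b a) : p a (a * c) = a := by
  have h1 : b (-b a) = b a := by rw [b_neg, b_b H]
  have h2 := dis' H h1 h
  rw [H.top] at h2
  have h3 : p (-b a) c = -b a := by
    rw [p, neg_neg, ← h, ← b_neg c, mul_comm, mul_b H]
  rw [← h2, h3, H.top]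

theorem abs2 {a c : A} (h : b c = b a) : a * p a c = a := by
  have := abs1 H (a := -a) (c := -c) (by rw [b_neg, b_neg, h])
  rw [p, neg_neg] at this
  exact neg_injective this

/-- separation by two-valued maps -/
theorem sep {e u w : A} (hu : b u = e) (hw : b w = e) (huw : u * w ≠ u) :
    ∃ h : A → Prop, h u ∧ ¬ h w ∧ ¬ h e ∧
      (∀ a c, b a = e → b c = e → (h (a * c) ↔ h a ∧ h c)) ∧
      (∀ a c, b a = e → b c = e → (h (p a c) ↔ h a ∨ h c)) ∧ (∀ a, b a = e → (h (-a) ↔ ¬ h a)) := by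
  have hee : e * e = e := H.idem e
  have hbe : b e = e := by rw [← hu, b_b H]
  let B := {a : A // b a = e}
  let : Max B := ⟨fun a c => ⟨p a.1 c.1, by rw [b_p H, a.2, c.2, hee]⟩⟩
  let : Min B := ⟨fun a c => ⟨a.1 * c.1, by rw [H.bm, a.2, c.2, hee]⟩⟩
  let L : Lattice B := Lattice.mk' (fun a c => Subtype.ext (p_comm _ _))
    (fun a c d => Subtype.ext (p_assoc _ _ _)) (fun a c => Subtype.ext (mul_comm _ _))
    (fun a c d => Subtype.ext (mul_assoc _ _ _))
    (fun a c => Subtype.ext (abs1 H (c.2.trans a.2.symm)))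
    (fun a c => Subtype.ext (abs2 H (c.2.trans a.2.symm)))
  have hs : ∀ a c : B, (a ⊔ c).1 = p a.1 c.1 := fun _ _ => rfl
  have hi : ∀ a c : B, (a ⊓ c).1 = a.1 * c.1 := fun _ _ => rfl
  let : DistribLattice B := DistribLattice.ofInfSupLe fun a c d =>
    le_of_eq (Subtype.ext (dis' H (c.2.trans a.2.symm) (d.2.trans a.2.symm)))
  have hle : ∀ a c : B, a ≤ c ↔ a.1 * c.1 = a.1 := fun a c => by
    rw [← inf_eq_left, Subtype.ext_iff, hi]
  obtain ⟨J, hJ, h1, h2⟩ := DistribLattice.prime_ideal_of_disjoint_filter_ideal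
    (F := Order.PFilter.principal (⟨u, hu⟩ : B)) (I := Order.Ideal.principal (⟨w, hw⟩ : B)) (by
      rw [Set.disjoint_left]
      intro a k1 k2
      exact huw ((hle ⟨u, hu⟩ ⟨w, hw⟩).1 (le_trans (Order.PFilter.mem_principal.1 k1)
        (Order.Ideal.mem_principal.1 k2))))
  have hwJ : (⟨w, hw⟩ : B) ∈ J := h1 (Order.Ideal.mem_principal.2 le_rfl)
  have huJ : (⟨u, hu⟩ : B) ∉ J := Set.disjoint_left.1 h2 (Order.PFilter.mem_principal.2 le_rfl)
  have heJ : (⟨e, hbe⟩ : B) ∈ J := J.lower ((hle ⟨e, hbe⟩ ⟨w, hw⟩).2 (by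
    change e * w = e
    rw [← hw, mul_comm, mul_b H])) hwJ
  have key : ∀ (a : A) (ha : b a = e), (∀ k : b a = e, (⟨a, k⟩ : B) ∉ J) ↔ (⟨a, ha⟩ : B) ∉ J :=
    fun a ha => ⟨fun h => h ha, fun h _ => h⟩
  have m1 : ∀ a c : B, a ⊓ c ∉ J ↔ a ∉ J ∧ c ∉ J := fun a c =>
    ⟨fun h => ⟨fun k => h (J.lower inf_le_left k), fun k => h (J.lower inf_le_right k)⟩,
      fun h k => (hJ.mem_or_mem k).elim h.1 h.2⟩
  have m2 : ∀ a c : B, a ⊔ c ∉ J ↔ a ∉ J ∨ c ∉ J := fun a c => by
    rw [Order.Ideal.sup_mem_iff, not_and_or]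
  refine ⟨fun a => ∀ k : b a = e, (⟨a, k⟩ : B) ∉ J, fun _ => huJ, fun h => h hw hwJ,
    fun h => h hbe heJ, fun a c ha hc => ?_, fun a c ha hc => ?_, fun a ha => ?_⟩
  · beta_reduce
    rw [key a ha, key c hc, ← m1]
    exact key _ _
  · beta_reduce
    rw [key a ha, key c hc, ← m2]
    exact key _ _
  · have ha' : b (-a) = e := by rw [b_neg, ha]
    beta_reduce
    rw [key a ha, key _ ha']
    have k1 : (⟨a, ha⟩ : B) ⊓ ⟨-a, ha'⟩ = ⟨e, hbe⟩ := Subtype.ext ha
    have k2 : (⟨u, hu⟩ : B) ≤ ⟨a, ha⟩ ⊔ ⟨-a, ha'⟩ := (hle _ _).2 (by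
      change u * p a (-a) = u
      rw [p, ← b, b_neg, ha, ← hu, H.top])
    have k3 := m1 ⟨a, ha⟩ ⟨-a, ha'⟩
    have k4 := (m2 ⟨a, ha⟩ ⟨-a, ha'⟩).1 fun k => huJ (J.lower k2 k)
    rw [k1] at k3
    tauto

def occ (i : ℕ) : Tm → Prop
  | .var j => j = i
  | .one => False
  | .mul s t => occ i s ∨ occ i t
  | .neg s => occ i s

def MA (A : Type) [CommMonoid A] [InvolutiveNeg A] : Alg A := ⟨(· * ·), (- ·), 1⟩

theorem b_one : b (1 : A) = 1 := by rw [b, H.n1, mul_one]

theorem occ_le (v : ℕ → A) (i : ℕ) (t : Tm) (h : occ i t) :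
    b (v i) * b (eval (MA A) v t) = b (eval (MA A) v t) := by
  induction t with
  | var j => obtain rfl : j = i := h; exact H.idem _
  | one => exact h.elim
  | mul s t hs ht =>
    change _ * b (eval (MA A) v s * eval (MA A) v t) = b (eval (MA A) v s * eval (MA A) v t)
    rw [H.bm]
    rcases h with h | h
    · rw [← mul_assoc, hs h]
    · rw [mul_left_comm, ht h]
  | neg s hs =>
    change _ * b (-eval (MA A) v s) = b (-eval (MA A) v s)
    rw [b_neg]
    exact hs h

theorem le_of_occ (v : ℕ → A) (e : A) (t : Tm) (h : ∀ i, occ i t → b (v i) * e = e) :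
    b (eval (MA A) v t) * e = e := by
  induction t with
  | var j => exact h j rfl
  | one => change b (1 : A) * e = e; rw [b_one H, one_mul]
  | mul s t hs ht =>
    change b (eval (MA A) v s * eval (MA A) v t) * e = e
    rw [H.bm, mul_assoc, ht fun i k => h i (Or.inr k), hs fun i k => h i (Or.inl k)]
  | neg s hs =>
    change b (-eval (MA A) v s) * e = e
    rw [b_neg]
    exact hs h

omit H in
theorem occ_iff (i : ℕ) (t : Tm) :
    occ i t ↔ eval C3 (fun j => if j = i then 1 else 2) t ≠ 2 := by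
  induction t with
  | var j => by_cases h : j = i <;> simp [occ, eval, h]
  | one => simp [occ, eval, C3]
  | mul s t hs ht =>
    have : ∀ a c : Fin 3, C3.mul a c ≠ 2 ↔ a ≠ 2 ∨ c ≠ 2 := by decide
    simp only [occ, eval, this, hs, ht]
  | neg s hs =>
    have : ∀ a : Fin 3, C3.neg a ≠ 2 ↔ a ≠ 2 := by decide
    simp only [occ, eval, this, hs]

theorem half (s t : Tm) (hst : Sat C3 s t) (v : ℕ → A) :
    eval (MA A) v s * eval (MA A) v t = eval (MA A) v s := by
  classical
  have ho : ∀ i, occ i s ↔ occ i t := fun i => by rw [occ_iff, occ_iff, hst]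
  have hb : b (eval (MA A) v t) = b (eval (MA A) v s) := by
    have k1 := le_of_occ H v _ s fun i k => occ_le H v i t ((ho i).1 k)
    have k2 := le_of_occ H v _ t fun i k => occ_le H v i s ((ho i).2 k)
    rw [← k1, mul_comm, k2]
  by_contra hne
  obtain ⟨e, he⟩ : ∃ e, b (eval (MA A) v s) = e := ⟨_, rfl⟩
  obtain ⟨h, h1, h2, h3, h4, h5, h6⟩ := sep H he (hb.trans he) hne
  have hbe : b e = e := by rw [← he, b_b H]
  obtain ⟨φ, hφ⟩ : ∃ φ : A → Fin 3, ∀ a, φ a = if h (p a e) then 1 else if h (p (-a) e) then 0 else 2 :=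
    ⟨_, fun _ => rfl⟩
  have hC : ∀ a, b a * e = e → b (p a e) = e := fun a k => by rw [b_p H, hbe, k]
  have hD : ∀ a, b a * e = e → b (p (-a) e) = e := fun a k => by rw [b_p H, hbe, b_neg, k]
  have hCD : ∀ a, b a * e = e → ¬ (h (p a e) ∧ h (p (-a) e)) := fun a k => by
    have k1 := H.cd a e
    rw [H.bm, hbe, k] at k1
    rw [← h4 _ _ (hC a k) (hD a k), k1]
    exact h3
  have pe : ∀ a c, p (p a c) e = p (p a e) (p c e) := fun a c => by
    rw [p_assoc, p_assoc, p_comm e, p_assoc, p_idem H]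
  have main : ∀ r : Tm, (∀ i, occ i r → b (v i) * e = e) →
      φ (eval (MA A) v r) = eval C3 (fun i => φ (v i)) r := by
    intro r
    induction r with
    | var j => intro _; rfl
    | one =>
      intro _
      change φ 1 = 2
      have : p 1 e = e := by rw [p, H.n1, one_mul, neg_neg]
      rw [hφ, H.n1, this, if_neg h3, if_neg h3]
    | neg r ih =>
      intro k
      change φ (-eval (MA A) v r) = C3.neg _
      rw [← ih k, hφ, hφ, neg_neg]
      have := hCD _ (le_of_occ H v e r k)
      split_ifs <;> first | rfl | tauto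
    | mul r q ih1 ih2 =>
      intro k
      have k1 := le_of_occ H v e r fun i j => k i (Or.inl j)
      have k2 := le_of_occ H v e q fun i j => k i (Or.inr j)
      change φ (eval (MA A) v r * eval (MA A) v q) = C3.mul _ _
      rw [← ih1 fun i j => k i (Or.inl j), ← ih2 fun i j => k i (Or.inr j)]
      generalize eval (MA A) v r = a at k1
      generalize eval (MA A) v q = c at k2
      have d1 : h (p (-(a * c)) e) ↔ h (p (-a) e) ∨ h (p (-c) e) := by
        rw [neg_mul', pe, h5 _ _ (hD a k1) (hD c k2)]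
      have d2 : h (p (a * c) e) ↔ (h (p a e) ∨ h (p c e)) ∧ ¬ h (p (-a) e) ∧ ¬ h (p (-c) e) := by
        have k3 := H.cm a c e
        have k4 : b (a * c * e) = e := by rw [H.bm, H.bm, hbe, mul_assoc, k2, k1]
        have k5 : ∀ a, a * -e = -p (-a) e := fun a => by rw [neg_p, neg_neg]
        have k6 : ∀ a, b a * e = e → b (-p (-a) e) = e := fun a k => by rw [b_neg, hD a k]
        rw [k4, ← p_assoc, pe, k5, k5] at k3
        rw [k3, h4, h4 _ _ (k6 a k1) (k6 c k2), h5 _ _ (hC a k1) (hC c k2), h6 _ (hD a k1),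
          h6 _ (hD c k2)]
        · rw [b_p H, hC a k1, hC c k2, H.idem]
        · rw [H.bm, k6 a k1, k6 c k2, H.idem]
      have c1 := hCD a k1
      have c2 := hCD c k2
      rw [hφ, hφ, hφ]
      simp only [d1, d2]
      by_cases q1 : h (p a e) <;> by_cases q2 : h (p (-a) e) <;> by_cases q3 : h (p c e) <;>
        by_cases q4 : h (p (-c) e) <;> simp only [q1, q2, q3, q4] at c1 c2 ⊢ <;>
        first | decide | tauto
  have m1 := main s fun i k => he ▸ occ_le H v i s k
  have m2 := main t fun i k => (hb.trans he) ▸ occ_le H v i t k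
  rw [hst, ← m2, hφ, hφ] at m1
  have p1 : p (eval (MA A) v s) e = eval (MA A) v s := he ▸ p_b H _
  have p2 : p (eval (MA A) v t) e = eval (MA A) v t := (hb.trans he) ▸ p_b H _
  rw [p1, p2, if_pos h1, if_neg h2] at m1
  split_ifs at m1 <;> exact absurd m1 (by decide)

end proof

theorem result (A : Type) (M : Alg A) :
    (∀ q ∈ basis, Sat M q.1 q.2) ↔ ∀ s t : Tm, Sat C3 s t → Sat M s t := by
  constructor
  · intro h s t hst v
    simp only [basis, List.forall_mem_cons, List.not_mem_nil, false_imp_iff, implies_true,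
      and_true] at h
    obtain ⟨a1, a2, a3, a4, a5, a6, a7, a8, a9, a10, a11⟩ := h
    let w : A → A → A → ℕ → A := fun a c d i => match i with
      | 0 => a
      | 1 => c
      | _ => d
    let : CommMonoid A :=
      { mul := M.mul, one := M.one
        mul_assoc := fun a c d => a1 (w a c d)
        mul_comm := fun a c => a2 (w a c c)
        one_mul := fun a => a4 (w a a a)
        mul_one := fun a => (a2 (w a M.one a)).trans (a4 (w a a a)) }
    let : InvolutiveNeg A := { neg := M.neg, neg_neg := fun a => a5 (w a a a) }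
    have H : Ax A := ⟨fun a => a3 (w a a a), a6 v, fun a c => a7 (w a c c), fun a => a8 (w a a a),
      fun a c d => a9 (w a c d), fun a c d => a10 (w a c d), fun a c => a11 (w a c c)⟩
    have k1 := half H s t hst v
    have k2 := half H t s (fun u => (hst u).symm) v
    exact k1.symm.trans ((mul_comm _ _).trans k2)
  · intro h q hq
    apply h
    simp only [basis, List.mem_cons, List.not_mem_nil, or_false] at hq
    rcases hq with rfl | rfl | rfl | rfl | rfl | rfl | rfl | rfl | rfl | rfl | rfl <;> intro v <;>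
      simp only [eval, x, y, z, bt, pl, e2, e3] <;> (try generalize v 0 = a) <;>
      (try generalize v 1 = c) <;> (try generalize v 2 = d) <;> decide +revert

end Pool.Agent.Results.MP_7f507d_al.Basis
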